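import Pool.Agent.H72.PATH
import Pool.Agent.H33.KAL.RMG
import Pool.Agent.H77.KAL.RMN
import Pool.Agent.H7.SLP.SLK

/-!
# Unisolvent typical points

A random position with almost maximal entropy: among the points of every set of probability at
least one half there are points at which a given family of monomials is unisolvent, with a bound
for the inverse matrix.
-/

set_option autoImplicit false

namespace Pool.Agent.H39.SLP

open Finset Real
open Pool.Agent.H49.Ent Pool.Agent.H32.Dense Pool.STK Pool.KAF Pool.KAL Pool.SLP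

lemma exp_large (A a : ℝ) (ha : 0 < a) : ∃ K₀ : ℕ, ∀ n : ℕ, K₀ ≤ n → A ≤ Real.exp (a * n) := by
  refine ⟨⌈A / a⌉₊, fun n hn => ?_⟩
  have h1 : A / a ≤ n := (Nat.le_ceil _).trans (by exact_mod_cast hn)
  have h2 : A ≤ a * n := by
    rw [div_le_iff₀ ha] at h1
    linarith only [h1]
  linarith only [h2, Real.add_one_le_exp (a * n)]

/-- The coefficients of a polynomial are bounded by its supremum on the cube. -/
lemma coef_bd (k K : ℕ) : ∃ A : ℝ, 1 ≤ A ∧ ∀ (ι : Type) [Fintype ι] (al : ι → Fin k → ℕ)
    (c : ι → ℝ) (S : ℝ), Function.Injective al → (∀ i, ∑ l, al i l ≤ K) →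
    (∀ x : Fin k → ℝ, (∀ l, |x l| ≤ 1) → |∑ i, c i * mon (al i) x| ≤ S) →
    ∀ i, |c i| ≤ A * S := by
  classical
  obtain ⟨x0, hx0⟩ := uni_pts (σ := {x : Fin k → ℝ // ∀ l, |x l| ≤ 1})
    (fun (al : Ix k K) x => mon (ex al) x.1) (mon_indep (k := k) (K := K))
  set M : Matrix (Ix k K) (Ix k K) ℝ := Matrix.of fun j i => mon (ex i) (x0 j).1 with hM
  have hsum0 : 0 ≤ ∑ i, ∑ j, |M⁻¹ i j| :=
    Finset.sum_nonneg fun i _ => Finset.sum_nonneg fun j _ => abs_nonneg _
  refine ⟨1 + ∑ i, ∑ j, |M⁻¹ i j|, by linarith only [hsum0], ?_⟩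
  intro ι _ al c S hal hK hS i
  have hS0 : 0 ≤ S := (abs_nonneg _).trans (hS 0 (by simp))
  set c' : Ix k K → ℝ := fun be => ∑ i, if al i = ex be then c i else 0 with hc'
  have hlt : ∀ i l, al i l < K + 1 := fun i l => Nat.lt_succ_of_le
    ((Finset.single_le_sum (f := al i) (fun _ _ => Nat.zero_le _) (Finset.mem_univ l)).trans
      (hK i))
  set ix : ι → Ix k K := fun i => ⟨fun l => ⟨al i l, hlt i l⟩, hK i⟩ with hix
  have hex : ∀ i, ex (ix i) = al i := fun i => rfl
  have hev : ∀ x : Fin k → ℝ, ∑ be, c' be * mon (ex be) x = ∑ i, c i * mon (al i) x := by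
    intro x
    simp only [hc', Finset.sum_mul]
    rw [Finset.sum_comm]
    refine Finset.sum_congr rfl fun i _ => ?_
    rw [Finset.sum_eq_single (ix i)]
    · rw [if_pos (hex i).symm, hex]
    · intro be _ hbe
      rw [if_neg, zero_mul]
      intro h
      apply hbe
      apply Subtype.ext
      funext l
      apply Fin.ext
      exact (congrFun h l).symm
    · intro h
      exact absurd (Finset.mem_univ _) h
  exact by
   have hci : c' (ix i) = c i := by
     simp only [hc']
     rw [Finset.sum_eq_single i]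
     · rw [if_pos (hex i).symm]
     · intro i' _ h
       rw [if_neg]
       intro h2
       exact h (hal (h2.trans (hex i)))
     · intro h
       exact absurd (Finset.mem_univ _) h
   have hu : IsUnit M.det := isUnit_iff_ne_zero.2 hx0
   have h1 : M⁻¹.mulVec (M.mulVec c') = c' := by
     rw [Matrix.mulVec_mulVec, Matrix.nonsing_inv_mul M hu, Matrix.one_mulVec]
   have h2 : ∀ j, |M.mulVec c' j| ≤ S := by
     intro j
     have h3 : M.mulVec c' j = ∑ i, c i * mon (al i) (x0 j).1 := by
       rw [← hev]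
       simp only [Matrix.mulVec, dotProduct, hM, Matrix.of_apply]
       exact Finset.sum_congr rfl fun _ _ => mul_comm _ _
     rw [h3]
     exact hS _ (x0 j).2
   have h3 : c i = M⁻¹.mulVec (M.mulVec c') (ix i) := by rw [h1, hci]
   rw [h3]
   calc |M⁻¹.mulVec (M.mulVec c') (ix i)| ≤ ∑ j, |M⁻¹ (ix i) j * M.mulVec c' j| :=
         Finset.abs_sum_le_sum_abs (fun j => M⁻¹ (ix i) j * M.mulVec c' j) univ
     _ ≤ ∑ j, |M⁻¹ (ix i) j| * S := by
         refine Finset.sum_le_sum fun j _ => ?_
         rw [abs_mul]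
         exact mul_le_mul_of_nonneg_left (h2 j) (abs_nonneg _)
     _ = (∑ j, |M⁻¹ (ix i) j|) * S := by rw [Finset.sum_mul]
     _ ≤ (1 + ∑ i, ∑ j, |M⁻¹ i j|) * S := by
         refine mul_le_mul_of_nonneg_right ?_ hS0
         have h4 : ∑ j, |M⁻¹ (ix i) j| ≤ ∑ i, ∑ j, |M⁻¹ i j| :=
           Finset.single_le_sum (f := fun i => ∑ j, |M⁻¹ i j|)
             (fun i _ => Finset.sum_nonneg fun j _ => abs_nonneg _) (Finset.mem_univ (ix i))
         linarith only [h4]

lemma pow_lip {B a b : ℝ} (hB : 1 ≤ B) (ha : |a| ≤ B) (hb : |b| ≤ B) (n : ℕ) :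
    |a ^ n - b ^ n| ≤ n * B ^ n * |a - b| := by
  induction n with
  | zero => simp
  | succ n ih =>
    have e : a ^ (n + 1) - b ^ (n + 1) = a * (a ^ n - b ^ n) + (a - b) * b ^ n := by ring
    have hB0 : 0 ≤ B := by linarith only [hB]
    have hBn : 0 ≤ B ^ n := by positivity
    have hab : 0 ≤ |a - b| := abs_nonneg _
    have h1 : |a * (a ^ n - b ^ n)| ≤ B * (n * B ^ n * |a - b|) := by
      rw [abs_mul]
      exact mul_le_mul ha ih (abs_nonneg _) hB0
    have h2 : |(a - b) * b ^ n| ≤ |a - b| * B ^ n := by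
      rw [abs_mul, abs_pow]
      exact mul_le_mul_of_nonneg_left (pow_le_pow_left₀ (abs_nonneg _) hb n) hab
    rw [e]
    refine (abs_add_le _ _).trans ?_
    refine (add_le_add h1 h2).trans ?_
    push_cast
    have h3 : |a - b| * B ^ n ≤ |a - b| * B ^ n * B := by
      nlinarith only [hB, hab, hBn, mul_nonneg hab hBn]
    rw [pow_succ]
    nlinarith only [h3, h3]

lemma prod_lip {κ : Type} [DecidableEq κ] (s : Finset κ) (f g F δ : κ → ℝ) (hF : ∀ l, 1 ≤ F l)
    (hδ : ∀ l, 0 ≤ δ l) (hf : ∀ l, |f l| ≤ F l) (hg : ∀ l, |g l| ≤ F l)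
    (h : ∀ l, |f l - g l| ≤ δ l) :
    |∏ l ∈ s, f l - ∏ l ∈ s, g l| ≤ (∏ l ∈ s, F l) * ∑ l ∈ s, δ l := by
  induction s using Finset.induction_on with
  | empty => simp
  | insert l s hl ih =>
    rw [Finset.prod_insert hl, Finset.prod_insert hl, Finset.prod_insert hl, Finset.sum_insert hl]
    have e : f l * ∏ x ∈ s, f x - g l * ∏ x ∈ s, g x =
        f l * (∏ x ∈ s, f x - ∏ x ∈ s, g x) + (f l - g l) * ∏ x ∈ s, g x := by ring
    have hP : 1 ≤ ∏ x ∈ s, F x := Finset.one_le_prod fun x _ => hF x
    have hS : 0 ≤ ∑ x ∈ s, δ x := Finset.sum_nonneg fun x _ => hδ x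
    have h1 : |f l * (∏ x ∈ s, f x - ∏ x ∈ s, g x)| ≤
        F l * ((∏ x ∈ s, F x) * ∑ x ∈ s, δ x) := by
      rw [abs_mul]
      exact mul_le_mul (hf l) ih (abs_nonneg _) (by linarith only [hF, hF l])
    have h2 : |(f l - g l) * ∏ x ∈ s, g x| ≤ δ l * ∏ x ∈ s, F x := by
      rw [abs_mul, Finset.abs_prod]
      exact mul_le_mul (h l) (Finset.prod_le_prod (fun _ _ => abs_nonneg _) fun x _ => hg x)
        (Finset.prod_nonneg fun _ _ => abs_nonneg _) (hδ l)
    rw [e]
    refine (abs_add_le _ _).trans ((add_le_add h1 h2).trans ?_)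
    have h3 : δ l * ∏ x ∈ s, F x ≤ F l * (δ l * ∏ x ∈ s, F x) := by
      have : 0 ≤ δ l * ∏ x ∈ s, F x := mul_nonneg (hδ l) (by linarith only [hP])
      nlinarith only [this, hF, hF l]
    calc F l * ((∏ x ∈ s, F x) * ∑ x ∈ s, δ x) + δ l * ∏ x ∈ s, F x ≤
        F l * ((∏ x ∈ s, F x) * ∑ x ∈ s, δ x) + F l * (δ l * ∏ x ∈ s, F x) := by linarith only [h3]
      _ = F l * (∏ x ∈ s, F x) * (δ l + ∑ x ∈ s, δ x) := by ring

/-- Monomials are Lipschitz on a cube. -/
lemma mon_lip {k K : ℕ} {B δ : ℝ} (hB : 1 ≤ B) (hδ : 0 ≤ δ) {al : Fin k → ℕ}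
    (hal : ∑ l, al l ≤ K) {x x' : Fin k → ℝ} (hx : ∀ l, |x l| ≤ B) (hx' : ∀ l, |x' l| ≤ B)
    (h : ∀ l, |x l - x' l| ≤ δ) : |mon al x - mon al x'| ≤ K * (B ^ K * B ^ K) * δ := by
  have hB0 : 0 ≤ B := by linarith only [hB]
  have h1 := prod_lip univ (fun l => x l ^ al l) (fun l => x' l ^ al l) (fun l => B ^ al l)
    (fun l => al l * B ^ al l * δ) (fun l => one_le_pow₀ hB) (fun l => by positivity)
    (fun l => by
      rw [abs_pow]
      exact pow_le_pow_left₀ (abs_nonneg _) (hx l) _)
    (fun l => by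
      rw [abs_pow]
      exact pow_le_pow_left₀ (abs_nonneg _) (hx' l) _)
    (fun l => (pow_lip hB (hx l) (hx' l) (al l)).trans
      (mul_le_mul_of_nonneg_left (h l) (by positivity)))
  refine h1.trans ?_
  have e1 : ∏ l, B ^ al l = B ^ ∑ l, al l := Finset.prod_pow_eq_pow_sum univ al B
  have e2 : B ^ (∑ l, al l) ≤ B ^ K := pow_le_pow_right₀ hB hal
  have e3 : ∑ l, (al l : ℝ) * B ^ al l * δ ≤ K * B ^ K * δ := by
    calc ∑ l, (al l : ℝ) * B ^ al l * δ ≤ ∑ l, (al l : ℝ) * B ^ K * δ := by
          refine Finset.sum_le_sum fun l _ => ?_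
          have : al l ≤ K := (Finset.single_le_sum (f := al) (fun _ _ => Nat.zero_le _)
            (Finset.mem_univ l)).trans hal
          have h2 : B ^ al l ≤ B ^ K := pow_le_pow_right₀ hB this
          gcongr
      _ = (∑ l, (al l : ℝ)) * (B ^ K * δ) := by
          rw [Finset.sum_mul]
          exact Finset.sum_congr rfl fun _ _ => by ring
      _ ≤ K * (B ^ K * δ) := by
          refine mul_le_mul_of_nonneg_right ?_ (by positivity)
          exact_mod_cast hal
      _ = K * B ^ K * δ := by ring
  rw [e1]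
  calc B ^ (∑ l, al l) * ∑ l, (al l : ℝ) * B ^ al l * δ ≤ B ^ K * (K * B ^ K * δ) := by
        refine mul_le_mul e2 e3 (Finset.sum_nonneg fun l _ => by positivity) (by positivity)
    _ = K * (B ^ K * B ^ K) * δ := by ring

/-- Entropy bound when half of the mass is in a set `A`. -/
lemma H_le_half {Ω S : Type} [Fintype Ω] [Fintype S] [DecidableEq S] {p : Ω → ℝ} (hp : IsLaw p)
    (y : Ω → S) (A : Finset S) (G : Set Ω) (hG : 1 / 2 ≤ Pr p G)
    (hA : ∀ ω ∈ G, 0 < p ω → y ω ∈ A) :
    H p y ≤ Real.log 2 + 1 / 2 * Real.log A.card + 1 / 2 * Real.log (Fintype.card S) := by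
  classical
  obtain ⟨ω₀, h0, h0'⟩ : ∃ ω, ω ∈ G ∧ 0 < p ω := by
    by_contra hcon
    push Not at hcon
    have : Pr p G = 0 := by
      unfold Pr law
      refine Finset.sum_eq_zero fun ω _ => ?_
      split_ifs with h
      · exact le_antisymm (hcon ω (of_eq_true h)) (hp.nonneg ω)
      · rfl
    rw [this] at hG
    norm_num at hG
  have hAc : 0 < A.card := Finset.card_pos.mpr ⟨_, hA ω₀ h0 h0'⟩
  have hAr : (0 : ℝ) < A.card := by exact_mod_cast hAc
  have hAS : (A.card : ℝ) ≤ Fintype.card S := by exact_mod_cast Finset.card_le_univ A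
  have hSr : (0 : ℝ) < Fintype.card S := lt_of_lt_of_le hAr hAS
  have hlog : Real.log A.card ≤ Real.log (Fintype.card S) := Real.log_le_log hAr hAS
  set q : S → ℝ := fun s => if s ∈ A then (2 * (A.card : ℝ))⁻¹ else (2 * (Fintype.card S : ℝ))⁻¹
    with hq
  have hqpos : ∀ s, 0 < q s := by
    intro s
    simp only [hq]
    split_ifs <;> positivity
  have h1 := CH_le_cross hp.nonneg hp.sum_one y (fun _ => ()) (fun _ s => q s)
    (fun ω _ => hqpos _) (fun _ s => (hqpos s).le) (fun ω _ F => by
      calc ∑ s ∈ F, q s ≤ ∑ s, q s :=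
            Finset.sum_le_sum_of_subset_of_nonneg (Finset.subset_univ F) fun s _ _ => (hqpos s).le
        _ ≤ ∑ s, ((if s ∈ A then (2 * (A.card : ℝ))⁻¹ else 0) +
              (2 * (Fintype.card S : ℝ))⁻¹) := by
            refine Finset.sum_le_sum fun s _ => ?_
            simp only [hq]
            have : (0 : ℝ) < (2 * (Fintype.card S : ℝ))⁻¹ := by positivity
            split_ifs <;> linarith
        _ = 1 := by
            rw [Finset.sum_add_distrib, Finset.sum_const, Finset.card_univ, nsmul_eq_mul,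
              ← Finset.sum_filter, Finset.sum_const, nsmul_eq_mul, Finset.filter_mem_eq_inter,
              Finset.univ_inter]
            field_simp
            norm_num)
  exact by
   have h2 : CH p y (fun _ => ()) = H p y := by
     unfold CH
     rw [H_const hp.sum_one]
     rw [sub_zero]
     refine H_congr hp.nonneg ?_ ?_
     · intro ω ω' _ _ h
       exact Prod.ext h rfl
     · intro ω ω' _ _ h
       exact (Prod.ext_iff.mp h).1
   rw [h2] at h1
   refine h1.trans ?_
   set D : ℝ := Real.log (Fintype.card S) - Real.log A.card with hD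
   have hD0 : 0 ≤ D := by linarith only [hlog]
   have h3 : Ex p (fun ω => -Real.log (q (y ω))) ≤
       Ex p (fun ω => (Real.log 2 + Real.log (Fintype.card S)) -
         (if ω ∈ G then D else 0)) := by
     refine Ex_mono hp.nonneg fun ω hω => ?_
     simp only [hq]
     by_cases hmem : y ω ∈ A
     · rw [if_pos hmem, Real.log_inv, Real.log_mul (by norm_num) hAr.ne']
       split_ifs <;> linarith
     · rw [if_neg hmem, Real.log_inv, Real.log_mul (by norm_num) hSr.ne']
       have : ω ∉ G := fun h => hmem (hA ω h hω)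
       rw [if_neg this]
       linarith only
   have h4 : Ex p (fun ω => (Real.log 2 + Real.log (Fintype.card S)) -
         (if ω ∈ G then D else 0)) = (Real.log 2 + Real.log (Fintype.card S)) - Pr p G * D := by
     unfold Ex Pr law
     simp only [mul_sub]
     rw [Finset.sum_sub_distrib, ← Finset.sum_mul, hp.sum_one, one_mul, Finset.sum_mul]
     congr 1
     refine Finset.sum_congr rfl fun ω _ => ?_
     by_cases h : ω ∈ G
     · simp [h]
     · simp [h]
   exact by
    have h5 : 1 / 2 * D ≤ Pr p G * D := mul_le_mul_of_nonneg_right hG hD0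
    linarith only [h3, h4, h5]

/-- The polynomial with the coefficients `c`, in the variable of the grid. -/
noncomputable def gp {k : ℕ} {ι : Type} [Fintype ι] (c : ι → ℝ) (al : ι → Fin k → ℕ)
    (off : Fin k → ℝ) (N : ℝ) : MvPolynomial (Fin k) ℝ :=
  ∑ i, MvPolynomial.C (c i) *
    ∏ l, (MvPolynomial.C (off l) + MvPolynomial.C (1 / N) * MvPolynomial.X l) ^ al i l

lemma gp_eval {k : ℕ} {ι : Type} [Fintype ι] (c : ι → ℝ) (al : ι → Fin k → ℕ)
    (off : Fin k → ℝ) (N : ℝ) (x : Fin k → ℝ) :
    MvPolynomial.eval x (gp c al off N) = ∑ i, c i * mon (al i) (fun l => off l + 1 / N * x l) := by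
  unfold gp mon
  rw [map_sum]
  refine Finset.sum_congr rfl fun i _ => ?_
  rw [map_mul, MvPolynomial.eval_C, map_prod]
  congr 1
  refine Finset.prod_congr rfl fun l _ => ?_
  rw [map_pow, map_add, map_mul, MvPolynomial.eval_C, MvPolynomial.eval_C, MvPolynomial.eval_X]

lemma gp_deg {k K : ℕ} {ι : Type} [Fintype ι] (c : ι → ℝ) (al : ι → Fin k → ℕ)
    (hal : ∀ i, ∑ l, al i l ≤ K) (off : Fin k → ℝ) (N : ℝ) (j : Fin k) :
    (gp c al off N).degreeOf j ≤ K := by
  classical
  unfold gp
  refine (MvPolynomial.degreeOf_sum_le j _ _).trans (Finset.sup_le fun i _ => ?_)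
  refine (MvPolynomial.degreeOf_mul_le _ _ _).trans ?_
  rw [MvPolynomial.degreeOf_C, zero_add]
  refine (MvPolynomial.degreeOf_prod_le j _ _).trans ?_
  refine le_trans ?_ (hal i)
  refine Finset.sum_le_sum fun l _ => ?_
  refine (MvPolynomial.degreeOf_pow_le _ _ _).trans ?_
  have h1 : MvPolynomial.degreeOf j (MvPolynomial.C (off l) +
      MvPolynomial.C (1 / N) * MvPolynomial.X l : MvPolynomial (Fin k) ℝ) ≤ 1 := by
    refine (MvPolynomial.degreeOf_add_le _ _ _).trans (max_le ?_ ?_)
    · rw [MvPolynomial.degreeOf_C]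
      exact Nat.zero_le _
    · refine (MvPolynomial.degreeOf_mul_le _ _ _).trans ?_
      rw [MvPolynomial.degreeOf_C, zero_add, MvPolynomial.degreeOf_X]
      split_ifs <;> omega
  calc al i l * _ ≤ al i l * 1 := Nat.mul_le_mul_left _ h1
    _ = al i l := Nat.mul_one _

/-- The number of exponents. -/
lemma card_exp {k K : ℕ} {ι : Type} [Fintype ι] (al : ι → Fin k → ℕ)
    (hinj : Function.Injective al) (hal : ∀ i, ∑ l, al i l ≤ K) :
    Fintype.card ι ≤ (K + 1) ^ k := by
  have hlt : ∀ i l, al i l < K + 1 := fun i l => Nat.lt_succ_of_le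
    ((Finset.single_le_sum (f := al i) (fun _ _ => Nat.zero_le _) (Finset.mem_univ l)).trans
      (hal i))
  have h := Fintype.card_le_of_injective (fun i : ι => (fun l => ⟨al i l, hlt i l⟩ :
    Fin k → Fin (K + 1))) (fun i i' h => hinj (by
      funext l
      exact congrArg Fin.val (congrFun h l)))
  simpa using h

/-- **Unisolvent typical points.** `y` are the digits of the position `Y`, of almost maximal
entropy, `G` an event of probability at least one half, `al` a family of different exponents of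
degree at most `K`. There are points `z i` in `G` such that the matrix of the monomials at these
points has an inverse with entries at most `exp (C * Ky)`. -/
theorem un2 (k K : ℕ) (R : ℝ) (hR : 1 ≤ R) : ∃ (c C : ℝ) (K₀ : ℕ), 0 < c ∧ 0 ≤ C ∧
    ∀ Ky : ℕ, K₀ ≤ Ky → ∀ (Ω ι : Type) [Fintype Ω] [Fintype ι] [DecidableEq ι] (p : Ω → ℝ)
      (y : Ω → Fin k → Fin (2 ^ Ky)) (Y : Ω → Fin k → ℝ) (off : Fin k → ℝ) (G : Set Ω)
      (al : ι → Fin k → ℕ), IsLaw p → (∀ l, |off l| ≤ R) →
      (∀ ω, 0 < p ω → ∀ l, |Y ω l - (off l + ((y ω l : ℕ) : ℝ) / 2 ^ Ky)| ≤ R / 2 ^ Ky) →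
      k * (Ky * Real.log 2) - H p y ≤ c * Ky → 1 / 2 ≤ Pr p G → Function.Injective al →
      (∀ i, ∑ l, al i l ≤ K) →
      ∃ (z : ι → Ω) (N : ι → ι → ℝ), (∀ i, z i ∈ G ∧ 0 < p (z i)) ∧
        (∀ i j, |N i j| ≤ Real.exp (C * Ky)) ∧
        (∀ v : ι → ℝ, ∀ i, ∑ j, mon (al j) (Y (z i)) * ∑ l, N j l * v l = v i) ∧
        ∀ v : ι → ℝ, ∀ i, ∑ j, N i j * ∑ l, mon (al l) (Y (z j)) * v l = v i := by
  classical
  obtain ⟨A, hA1, hA⟩ := coef_bd k K
  obtain ⟨Cr, hCr1, hCr⟩ := rmn_thm rmg_thm k K
  have hl2 : 0 < Real.log 2 := Real.log_pos (by norm_num)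
  have hCr0 : (0 : ℝ) < Cr := by exact_mod_cast hCr1
  set c : ℝ := Real.log 2 / (32 * Cr) with hc
  have hc0 : 0 < c := by positivity
  set B : ℝ := 2 * R + 1 with hB
  set Lm : ℝ := K * (B ^ K * B ^ K) * R with hLm
  set cd : ℝ := ((K : ℝ) + 1) ^ k with hcd
  have hcd1 : 1 ≤ cd := one_le_pow₀ (by
    have : (0 : ℝ) ≤ K := Nat.cast_nonneg _
    linarith only)
  set E0 : ℝ := Cr * (1 + R) ^ Cr * Real.exp (Cr * (2 * Real.log 2)) with hE0
  have hE01 : 1 ≤ E0 := by
    have h1 : (1 : ℝ) ≤ Cr := by exact_mod_cast hCr1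
    have h2 : 1 ≤ (1 + R) ^ Cr := one_le_pow₀ (by linarith only [hR])
    have h3 : 1 ≤ Real.exp (Cr * (2 * Real.log 2)) := Real.one_le_exp (by positivity)
    have h4 : 1 ≤ Cr * (1 + R) ^ Cr := one_le_mul_of_one_le_of_one_le h1 h2
    exact one_le_mul_of_one_le_of_one_le h4 h3
  have hLm0 : 0 ≤ Lm := by positivity
  set a : ℝ := 15 / 16 * Real.log 2 with ha
  have ha0 : 0 < a := by positivity
  obtain ⟨K₁, hK₁⟩ := exp_large (Cr * Real.exp (Cr * (2 * Real.log 2))) a ha0
  obtain ⟨K₂, hK₂⟩ := exp_large (2 * (cd * A * E0 * Lm)) a ha0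
  set C : ℝ := Real.log 2 / 16 + Real.log (2 * cd * cd * A * E0) with hC
  have h2cd : 1 ≤ 2 * cd * cd * A * E0 := by
    have h1 : 1 ≤ cd * cd := one_le_mul_of_one_le_of_one_le hcd1 hcd1
    have h2 : 1 ≤ cd * cd * A := one_le_mul_of_one_le_of_one_le h1 hA1
    have h3 : 1 ≤ cd * cd * A * E0 := one_le_mul_of_one_le_of_one_le h2 hE01
    nlinarith only [h3]
  exact by
   have hlogC : 0 ≤ Real.log (2 * cd * cd * A * E0) := Real.log_nonneg h2cd
   refine ⟨c, C, max 1 (max K₁ K₂), hc0, by positivity, ?_⟩
   intro Ky hKy Ω ι _ _ _ p y Y off G al hp hoff hY hH hG hinj hal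
   have hKy1 : 1 ≤ Ky := (le_max_left _ _).trans hKy
   have hKyK1 : K₁ ≤ Ky := (le_max_left _ _).trans ((le_max_right _ _).trans hKy)
   have hKyK2 : K₂ ≤ Ky := (le_max_right _ _).trans ((le_max_right _ _).trans hKy)
   have hKyr : (1 : ℝ) ≤ Ky := by exact_mod_cast hKy1
   -- the size of the grid
   have hN : ((2 ^ Ky : ℕ) : ℝ) = Real.exp (Ky * Real.log 2) := by
     push_cast
     rw [← Real.log_pow, Real.exp_log (by positivity)]
   have hN' : (2 : ℝ) ^ Ky = Real.exp (Ky * Real.log 2) := by rw [← hN]; push_cast; rfl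
   set N : ℝ := (2 : ℝ) ^ Ky with hNdef
   have hN1 : 1 ≤ N := one_le_pow₀ (by norm_num)
   have hN0 : 0 < N := by linarith only [hN1]
   -- the good incidences
   set ι' : Type := {ω : Ω // ω ∈ G ∧ 0 < p ω} with hι'
   obtain ⟨n, f, hn, hf⟩ := Pool.H72.PATH.maxvol
     (fun (ω : ι') (j : ι) => mon (al j) (Y ω.1))
   have hcardι : (Fintype.card ι : ℝ) ≤ cd := by
     rw [hcd]
     exact_mod_cast card_exp al hinj hal
   have hnc : n ≤ Fintype.card ι := by
     rw [Module.finrank_fintype_fun_eq_card] at hn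
     exact hn
   have hncd : (n : ℝ) ≤ cd := (Nat.cast_le.mpr hnc).trans hcardι
   -- the set of positions of the good incidences
   set Aset : Finset (Fin k → Fin (2 ^ Ky)) :=
     (univ.filter fun ω => ω ∈ G ∧ 0 < p ω).image y with hAset
   have hcount : Real.exp (-(2 * (c * Ky) + 2 * Real.log 2)) * (((2 ^ Ky : ℕ) : ℝ)) ^ k ≤
       Aset.card := by
     have h1 := H_le_half hp y Aset G hG (fun ω hω hpω => by
       rw [hAset, Finset.mem_image]
       exact ⟨ω, Finset.mem_filter.mpr ⟨Finset.mem_univ _, hω, hpω⟩, rfl⟩)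
     have h2 : Real.log (Fintype.card (Fin k → Fin (2 ^ Ky))) = k * (Ky * Real.log 2) := by
       rw [Fintype.card_fun, Fintype.card_fin, Fintype.card_fin]
       push_cast
       rw [Real.log_pow, Real.log_pow]
     rw [h2] at h1
     have h3 : k * (Ky * Real.log 2) - (2 * (c * Ky) + 2 * Real.log 2) ≤
         Real.log Aset.card := by linarith only [hH, h1]
     have hpos : (0 : ℝ) < Aset.card := by
       have : 0 < Aset.card := by
         rw [Finset.card_pos]
         by_contra hcon
         rw [Finset.not_nonempty_iff_eq_empty] at hcon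
         have hz : Pr p G = 0 := by
           unfold Pr law
           refine Finset.sum_eq_zero fun ω _ => ?_
           split_ifs with h
           · by_contra hne
             have hpω : 0 < p ω := lt_of_le_of_ne (hp.nonneg ω) (Ne.symm hne)
             have : y ω ∈ Aset := by
               rw [hAset, Finset.mem_image]
               exact ⟨ω, Finset.mem_filter.mpr ⟨Finset.mem_univ _, of_eq_true h, hpω⟩, rfl⟩
             rw [hcon] at this
             exact absurd this (Finset.notMem_empty _)
           · rfl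
         rw [hz] at hG
         norm_num at hG
       exact_mod_cast this
     rw [hN, ← Real.exp_nat_mul, ← Real.exp_add, ← Real.exp_log hpos]
     apply Real.exp_le_exp.mpr
     linarith only [hH, h1]
   -- the main inequality
   exact by
    have key : ∀ (v : ι → ℝ) (σ : ℝ), 0 ≤ σ →
        (∀ m, |∑ j, v j * mon (al j) (Y (f m).1)| ≤ σ) →
        ∑ j, |v j| ≤ Real.exp (C * Ky) * σ := by
      intro v σ hσ hv
      set S : ℝ := ∑ j, |v j| with hS
      have hS0 : 0 ≤ S := Finset.sum_nonneg fun j _ => abs_nonneg _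
      -- small at all good points
      have h1 : ∀ ω : ι', |∑ j, v j * mon (al j) (Y ω.1)| ≤ n * σ := by
        intro ω
        obtain ⟨θ, hθ, hθe⟩ := hf ω
        have e1 : ∑ j, v j * mon (al j) (Y ω.1) =
            ∑ m, θ m * ∑ j, v j * mon (al j) (Y (f m).1) := by
          have e2 : ∀ j, mon (al j) (Y ω.1) = ∑ m, θ m * mon (al j) (Y (f m).1) := by
            intro j
            have := congrFun hθe j
            simpa [Finset.sum_apply, smul_eq_mul] using this
          calc ∑ j, v j * mon (al j) (Y ω.1) =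
              ∑ j, ∑ m, v j * (θ m * mon (al j) (Y (f m).1)) := by
                refine Finset.sum_congr rfl fun j _ => ?_
                rw [e2 j, Finset.mul_sum]
            _ = ∑ m, ∑ j, v j * (θ m * mon (al j) (Y (f m).1)) := Finset.sum_comm
            _ = ∑ m, θ m * ∑ j, v j * mon (al j) (Y (f m).1) := by
                refine Finset.sum_congr rfl fun m _ => ?_
                rw [Finset.mul_sum]
                exact Finset.sum_congr rfl fun j _ => by ring
        rw [e1]
        calc |∑ m, θ m * ∑ j, v j * mon (al j) (Y (f m).1)| ≤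
            ∑ m, |θ m * ∑ j, v j * mon (al j) (Y (f m).1)| := Finset.abs_sum_le_sum_abs _ _
          _ ≤ ∑ _m : Fin n, σ := by
              refine Finset.sum_le_sum fun m _ => ?_
              rw [abs_mul]
              calc |θ m| * |∑ j, v j * mon (al j) (Y (f m).1)| ≤ 1 * σ :=
                    mul_le_mul (hθ m) (hv m) (abs_nonneg _) zero_le_one
                _ = σ := one_mul _
          _ = n * σ := by simp
      -- small at the grid points
      set M : ℝ := cd * σ + S * (Lm / N) with hM
      have hM0 : 0 ≤ M := by positivity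
      have h2 : ∀ s ∈ Aset, |MvPolynomial.eval (fun i => ((s i : ℕ) : ℝ)) (gp v al off N)| ≤ M := by
        intro s hs
        rw [hAset, Finset.mem_image] at hs
        obtain ⟨ω, hω, rfl⟩ := hs
        obtain ⟨-, hωG, hpω⟩ := Finset.mem_filter.mp hω
        rw [gp_eval]
        have h3 := h1 ⟨ω, hωG, hpω⟩
        have h4 : ∀ j, |mon (al j) (fun l => off l + 1 / N * ((y ω l : ℕ) : ℝ)) -
            mon (al j) (Y ω)| ≤ Lm / N := by
          intro j
          have hfr : ∀ l, 0 ≤ ((y ω l : ℕ) : ℝ) / N ∧ ((y ω l : ℕ) : ℝ) / N ≤ 1 := by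
            intro l
            have h5 : ((y ω l : ℕ) : ℝ) ≤ N := by
              have h6 : (y ω l : ℕ) ≤ 2 ^ Ky := (y ω l).2.le
              have h7 : ((y ω l : ℕ) : ℝ) ≤ ((2 ^ Ky : ℕ) : ℝ) := by exact_mod_cast h6
              rw [hN, ← hN'] at h7
              exact h7
            exact ⟨by positivity, by rw [div_le_one hN0]; exact h5⟩
          have hRN : R / N ≤ R := div_le_self (by linarith only [hR]) hN1
          have b1 : ∀ l, |off l + 1 / N * ((y ω l : ℕ) : ℝ)| ≤ B := by
            intro l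
            obtain ⟨u1, u2⟩ := hfr l
            obtain ⟨w1, w2⟩ := abs_le.mp (hoff l)
            have e : 1 / N * ((y ω l : ℕ) : ℝ) = ((y ω l : ℕ) : ℝ) / N := by ring
            rw [e, abs_le]
            constructor <;> linarith
          have b2 : ∀ l, |Y ω l| ≤ B := by
            intro l
            obtain ⟨u1, u2⟩ := hfr l
            obtain ⟨w1, w2⟩ := abs_le.mp (hoff l)
            obtain ⟨x1, x2⟩ := abs_le.mp (hY ω hpω l)
            rw [abs_le]
            constructor <;> linarith
          have b3 : ∀ l, |(off l + 1 / N * ((y ω l : ℕ) : ℝ)) - Y ω l| ≤ R / N := by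
            intro l
            have e : (off l + 1 / N * ((y ω l : ℕ) : ℝ)) - Y ω l =
                -(Y ω l - (off l + ((y ω l : ℕ) : ℝ) / N)) := by ring
            rw [e, abs_neg]
            exact hY ω hpω l
          have := mon_lip (K := K) (by linarith only [hR] : 1 ≤ B) (by positivity : 0 ≤ R / N) (hal j)
            b1 b2 b3
          refine this.trans (le_of_eq ?_)
          rw [hLm]
          ring
        have e3 : ∑ i, v i * mon (al i) (fun l => off l + 1 / N * ((y ω l : ℕ) : ℝ)) =
            ∑ i, v i * mon (al i) (Y ω) + ∑ i, v i *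
              (mon (al i) (fun l => off l + 1 / N * ((y ω l : ℕ) : ℝ)) - mon (al i) (Y ω)) := by
          rw [← Finset.sum_add_distrib]
          exact Finset.sum_congr rfl fun i _ => by ring
        rw [e3]
        refine (abs_add_le _ _).trans ?_
        have h5 : |∑ i, v i *
              (mon (al i) (fun l => off l + 1 / N * ((y ω l : ℕ) : ℝ)) - mon (al i) (Y ω))| ≤
            S * (Lm / N) := by
          refine (Finset.abs_sum_le_sum_abs _ _).trans ?_
          rw [hS, Finset.sum_mul]
          refine Finset.sum_le_sum fun i _ => ?_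
          rw [abs_mul]
          exact mul_le_mul_of_nonneg_left (h4 i) (abs_nonneg _)
        have h6 : (n : ℝ) * σ ≤ cd * σ := mul_le_mul_of_nonneg_right hncd hσ
        have h3' : |∑ i, v i * mon (al i) (Y ω)| ≤ n * σ := h3
        linarith only [hωG, hpω, h3, h5, h6]
      -- Remez
      set ρ : ℝ := Real.exp (-(2 * (c * Ky) + 2 * Real.log 2)) with hρ
      have hρ0 : 0 < ρ := Real.exp_pos _
      have hρ1 : ρ ≤ 1 := Real.exp_le_one_iff.mpr (by
        have : 0 ≤ 2 * (c * Ky) + 2 * Real.log 2 := by positivity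
        linarith only [this])
      have hcCr : (Cr : ℝ) * (2 * (c * Ky)) = Real.log 2 / 16 * Ky := by
        rw [hc]
        field_simp
        ring
      have hρpow : ρ ^ Cr = Real.exp (-(Real.log 2 / 16 * Ky + Cr * (2 * Real.log 2))) := by
        rw [hρ, ← Real.exp_nat_mul]
        congr 1
        rw [← hcCr]
        ring
      have hrem : (Cr : ℝ) ≤ ρ ^ Cr * ((2 ^ Ky : ℕ) : ℝ) := by
        rw [hρpow, hN, ← Real.exp_add]
        have h7 := hK₁ Ky hKyK1
        have e7 : -(Real.log 2 / 16 * Ky + Cr * (2 * Real.log 2)) + Ky * Real.log 2 =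
            a * Ky - Cr * (2 * Real.log 2) := by rw [ha]; ring
        rw [e7, Real.exp_sub, le_div_iff₀ (Real.exp_pos _)]
        exact h7
      have h8 : ∀ x : Fin k → ℝ, (∀ l, |x l| ≤ 1) →
          |∑ i, v i * mon (al i) x| ≤ E0 * Real.exp (Real.log 2 / 16 * Ky) * M := by
        intro x hx
        have h9 := hCr (2 ^ Ky) (gp v al off N) ρ (1 + R) M (gp_deg v al hal off N) hρ0 hρ1 hrem
          (by linarith only [hR]) hM0 (hcount.trans (by
            exact_mod_cast Finset.card_le_card fun s hs =>
              Finset.mem_filter.mpr ⟨Finset.mem_univ _, h2 s hs⟩))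
          (fun l => N * (x l - off l)) (fun l => by
            rw [abs_mul, abs_of_pos hN0, hN, ← hN']
            have : |x l - off l| ≤ 1 + R := (abs_sub _ _).trans (add_le_add (hx l) (hoff l))
            calc N * |x l - off l| ≤ N * (1 + R) := mul_le_mul_of_nonneg_left this hN0.le
              _ = (1 + R) * N := mul_comm _ _)
        rw [gp_eval] at h9
        have e9 : (fun l => off l + 1 / N * (N * (x l - off l))) = x := by
          funext l
          field_simp
          ring
        rw [e9] at h9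
        refine h9.trans (le_of_eq ?_)
        rw [div_pow, hρpow, Real.exp_neg, Real.exp_add, hE0]
        field_simp
      have h10 : ∀ i, |v i| ≤ A * (E0 * Real.exp (Real.log 2 / 16 * Ky) * M) :=
        hA ι al v _ hinj hal h8
      have h11 : S ≤ cd * (A * (E0 * Real.exp (Real.log 2 / 16 * Ky) * M)) := by
        calc S ≤ ∑ _j : ι, A * (E0 * Real.exp (Real.log 2 / 16 * Ky) * M) :=
              Finset.sum_le_sum fun i _ => h10 i
          _ = Fintype.card ι * (A * (E0 * Real.exp (Real.log 2 / 16 * Ky) * M)) := by simp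
          _ ≤ cd * (A * (E0 * Real.exp (Real.log 2 / 16 * Ky) * M)) := by
              refine mul_le_mul_of_nonneg_right hcardι ?_
              positivity
      have h12 : cd * A * E0 * Real.exp (Real.log 2 / 16 * Ky) * (Lm / N) ≤ 1 / 2 := by
        have h13 := hK₂ Ky hKyK2
        have e13 : Real.exp (Real.log 2 / 16 * Ky) / N = (Real.exp (a * Ky))⁻¹ := by
          rw [hN', ← Real.exp_sub, ← Real.exp_neg, ha]
          congr 1
          ring
        have e14 : cd * A * E0 * Real.exp (Real.log 2 / 16 * Ky) * (Lm / N) =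
            cd * A * E0 * Lm * (Real.exp (Real.log 2 / 16 * Ky) / N) := by ring
        rw [e14, e13, ← div_eq_mul_inv, div_le_iff₀ (Real.exp_pos _)]
        linarith only [h13]
      have h15 : S ≤ cd * A * E0 * Real.exp (Real.log 2 / 16 * Ky) * cd * σ + 1 / 2 * S := by
        refine h11.trans ?_
        have e15 : cd * (A * (E0 * Real.exp (Real.log 2 / 16 * Ky) * M)) =
            cd * A * E0 * Real.exp (Real.log 2 / 16 * Ky) * cd * σ +
              (cd * A * E0 * Real.exp (Real.log 2 / 16 * Ky) * (Lm / N)) * S := by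
          rw [hM]
          ring
        rw [e15]
        have := mul_le_mul_of_nonneg_right h12 hS0
        linarith only [this]
      have h16 : S ≤ 2 * cd * cd * A * E0 * Real.exp (Real.log 2 / 16 * Ky) * σ := by
        have e16 : 2 * cd * cd * A * E0 * Real.exp (Real.log 2 / 16 * Ky) * σ =
          2 * (cd * A * E0 * Real.exp (Real.log 2 / 16 * Ky) * cd * σ) := by ring
        rw [e16]
        linarith only [h15]
      refine h16.trans ?_
      refine mul_le_mul_of_nonneg_right ?_ hσ
      rw [hC, add_mul, Real.exp_add, mul_comm]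
      refine mul_le_mul_of_nonneg_left ?_ (Real.exp_pos _).le
      calc 2 * cd * cd * A * E0 = Real.exp (Real.log (2 * cd * cd * A * E0)) :=
            (Real.exp_log (by linarith only [h2cd])).symm
        _ ≤ Real.exp (Real.log (2 * cd * cd * A * E0) * Ky) := by
            apply Real.exp_le_exp.mpr
            nlinarith only [hlogC, hKyr]
    -- the number of points
    exact by
     have hcn : Fintype.card ι = n := by
       refine le_antisymm ?_ hnc
       set Tm : (ι → ℝ) →ₗ[ℝ] (Fin n → ℝ) :=
         { toFun := fun v m => ∑ j, v j * mon (al j) (Y (f m).1)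
           map_add' := fun v w => by
             funext m
             simp only [Pi.add_apply, add_mul, Finset.sum_add_distrib]
           map_smul' := fun r v => by
             funext m
             simp only [Pi.smul_apply, smul_eq_mul, RingHom.id_apply, Finset.mul_sum, mul_assoc] }
         with hTm
       have hinjT : Function.Injective Tm := by
         rw [injective_iff_map_eq_zero]
         intro v hv
         have h1 : ∀ m, |∑ j, v j * mon (al j) (Y (f m).1)| ≤ 0 := by
           intro m
           have : ∑ j, v j * mon (al j) (Y (f m).1) = 0 := congrFun hv m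
           rw [this, abs_zero]
         have h2 := key v 0 le_rfl h1
         rw [mul_zero] at h2
         funext j
         have h3 : |v j| ≤ ∑ j, |v j| :=
           Finset.single_le_sum (f := fun j => |v j|) (fun _ _ => abs_nonneg _) (Finset.mem_univ j)
         have h4 : |v j| = 0 := le_antisymm (h3.trans h2) (abs_nonneg _)
         exact abs_eq_zero.mp h4
       have h5 := LinearMap.finrank_le_finrank_of_injective hinjT
       rw [Module.finrank_fintype_fun_eq_card, Module.finrank_fintype_fun_eq_card,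
         Fintype.card_fin] at h5
       exact h5
     set e : ι ≃ Fin n := Fintype.equivFinOfCardEq hcn with he
     exact by
      set M : Matrix ι ι ℝ := Matrix.of fun i j => mon (al j) (Y (f (e i)).1) with hMdef
      have hMv : ∀ v i, M.mulVec v i = ∑ j, v j * mon (al j) (Y (f (e i)).1) := by
        intro v i
        show ∑ j, mon (al j) (Y (f (e i)).1) * v j = _
        exact Finset.sum_congr rfl fun j _ => mul_comm _ _
      have key2 : ∀ (v : ι → ℝ) (σ : ℝ), 0 ≤ σ → (∀ i, |M.mulVec v i| ≤ σ) →
          ∑ j, |v j| ≤ Real.exp (C * Ky) * σ := by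
        intro v σ hσ hv
        refine key v σ hσ fun m => ?_
        have := hv (e.symm m)
        rw [hMv, e.apply_symm_apply] at this
        exact this
      have hunit : IsUnit M := by
        rw [← Matrix.mulVec_injective_iff_isUnit]
        intro v w hvw
        have h1 : ∀ i, |M.mulVec (v - w) i| ≤ 0 := by
          intro i
          have h0 : M.mulVec v = M.mulVec w := hvw
          rw [Matrix.mulVec_sub, h0, sub_self]
          simp
        have h2 := key2 (v - w) 0 le_rfl h1
        rw [mul_zero] at h2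
        funext j
        have h3 : |(v - w) j| ≤ ∑ j, |(v - w) j| :=
          Finset.single_le_sum (f := fun j => |(v - w) j|) (fun _ _ => abs_nonneg _)
            (Finset.mem_univ j)
        have h4 : |(v - w) j| = 0 := le_antisymm (h3.trans h2) (abs_nonneg _)
        have h5 := abs_eq_zero.mp h4
        simpa [sub_eq_zero] using h5
      have hdet : IsUnit M.det := (Matrix.isUnit_iff_isUnit_det M).mp hunit
      exact by
       refine ⟨fun i => (f (e i)).1, fun i j => M⁻¹ i j, fun i => (f (e i)).2, ?_, ?_, ?_⟩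
       · intro i l
         have h1 : M.mulVec (fun j => M⁻¹ j l) = Pi.single l 1 := by
           have h2 : (fun j => M⁻¹ j l) = M⁻¹.mulVec (Pi.single l 1) := by
             rw [Matrix.mulVec_single_one]
             rfl
           rw [h2, Matrix.mulVec_mulVec, Matrix.mul_nonsing_inv M hdet, Matrix.one_mulVec]
         have h3 := key2 (fun j => M⁻¹ j l) 1 zero_le_one (fun i => by
           rw [h1]
           by_cases h : i = l
           · subst h
             simp
           · simp [h])
         rw [mul_one] at h3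
         exact (Finset.single_le_sum (f := fun j => |M⁻¹ j l|) (fun _ _ => abs_nonneg _)
           (Finset.mem_univ i)).trans h3
       · intro v i
         have h1 : M.mulVec (M⁻¹.mulVec v) = v := by
           rw [Matrix.mulVec_mulVec, Matrix.mul_nonsing_inv M hdet, Matrix.one_mulVec]
         exact congrFun h1 i
       · intro v i
         have h1 : M⁻¹.mulVec (M.mulVec v) = v := by
           rw [Matrix.mulVec_mulVec, Matrix.nonsing_inv_mul M hdet, Matrix.one_mulVec]
         exact congrFun h1 i

end Pool.Agent.H39.SLP
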